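import Mathlib
import Pool.Agent.X206.RC.Vague
set_option autoImplicit false
open MeasureTheory Filter Topology Set

namespace Pool.Agent.Results.MP_da621d_pr.VagueLimit

/-- The measures `2 ^ d * d * P[α_d ∈ ·]` on `(0, ∞)` converge vaguely to a nonzero locally
finite Borel measure. -/
theorem result : ∃ μ : Measure (Ioi (0 : ℝ)), μ ≠ 0 ∧ IsLocallyFiniteMeasure μ ∧
    ∀ f : Ioi (0 : ℝ) → ℝ, Continuous f → HasCompactSupport f →
      Tendsto (fun d : ℕ => ∫ x, f x ∂(X206.RC.mud d)) atTop (𝓝 (∫ x, f x ∂μ)) :=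
  ⟨X206.RC.muL, X206.RC.muL_ne, X206.RC.muL_lf, fun _ hf hs => X206.RC.muL_lim hf hs⟩

end Pool.Agent.Results.MP_da621d_pr.VagueLimit
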